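import Pool.Agent.Helper308.ZGPMain
import Pool.Agent.Helper308.ZGPAvoid
import Pool.Agent.Helper308.ZGPEqui
import Pool.Agent.Helper308.ZGPPair

/-!
# Generic projections in Zariski equisingularity

The hypersurface germ `V : z^3 + t y^4 z + y^6 = x^6` in `ℂ^4` is equisingular at the origin along
the `t`-axis, by projecting first along the `x`-axis. But every projection whose line is not in the
tangent cone `z = 0` of `V` fails to be equisingular: its critical variety has cuspidal edges
tending to the origin with several limit directions. Hence no finite family of polynomials in the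
coefficients of the projection singles out equisingular projections.

All definitions are in `Pool.Agent.Helper308.ZGPDefs`, except the one below.
-/

set_option autoImplicit false

open Filter Topology

namespace Pool.Agent.Results.MP_299313_ag.GenericProjections

open Pool.Agent.Helper308.ZGP

/-- The projection `z` of the hypersurface germ `f = 0` is transversal: the line `ker dz(0)` is not
in the tangent cone of `f = 0` at the origin. In other words, the order of `f` along a nonzero
vector of this line is the smallest order of `f` along lines, the multiplicity of `f = 0`. -/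
def IsTransversal {n : ℕ} (f : Cn (n + 1) → ℂ) (z : Cn (n + 1) → Cn n) : Prop :=
  ∀ v, v ≠ 0 → fderiv ℂ z 0 v = 0 → ∀ w : Cn (n + 1),
    analyticOrderAt (fun s : ℂ => f (s • v)) 0 ≤ analyticOrderAt (fun s : ℂ => f (s • w)) 0

theorem minor_of_transversal (z : Cn 4 → Cn 3) (h : IsTransversal fE z) :
    ∀ v : Cn 4, v 2 = 0 → fderiv ℂ z 0 v = 0 → v = 0 := by
  intro v hv hk
  by_contra hne
  have h1 := h v hne hk (Pi.single 2 1)
  have h2 : (fun s : ℂ => fE (s • (Pi.single 2 1 : Cn 4))) = fun s => s ^ 3 := by
    funext s
    simp [fE]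
  have h3 : analyticOrderAt (fun s : ℂ => s ^ 3) 0 = (3 : ℕ) := by
    rw [AnalyticAt.analyticOrderAt_eq_natCast (by fun_prop)]
    exact ⟨fun _ => 1, by fun_prop, by norm_num, by simp⟩
  have h4 : ((6 : ℕ) : ℕ∞) ≤ analyticOrderAt (fun s : ℂ => fE (s • v)) 0 := by
    have he : (fun s : ℂ => fE (s • v)) = fun s => s ^ 6 * (v 1 ^ 6 - v 0 ^ 6) := by
      funext s
      simp only [fE, Pi.smul_apply, smul_eq_mul, hv]
      ring
    rw [he, natCast_le_analyticOrderAt (by fun_prop)]
    exact ⟨fun _ => v 1 ^ 6 - v 0 ^ 6, by fun_prop, by simp⟩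
  rw [h2, h3] at h1
  have h5 : ((6 : ℕ) : ℕ∞) ≤ ((3 : ℕ) : ℕ∞) := h4.trans h1
  norm_cast at h5

/-- For `V : z^3 + t y^4 z + y^6 = x^6` and `W` the `t`-axis (of codimension two in `V`), `V` is
equisingular at the origin along `W`, but no transversal projection is equisingular (and its
critical variety is singular at the origin), and every finite family of nonzero polynomials in the
coefficients admits coefficients where none of them vanishes, for which `z` is a `W`-permissible set
of parameters and is not an equisingular projection. -/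
theorem result :
    IsPair 2 3 fE WE ∧ Equi 2 3 fE WE ∧
    (∀ z : Cn 4 → Cn 3, IsParams fE z → IsTransversal fE z →
      ¬ EquiProj 1 2 fE WE z ∧ ∀ δ : Cn 3 → ℂ, IsCrit fE z δ → ¬ SmoothAt δ 0) ∧
    ∀ G : Finset (MvPolynomial (Fin 3 × Idx 4) ℂ), (∀ g ∈ G, g ≠ 0) →
      ∃ (a : Fin 3 × Idx 4 → ℂ) (z : Cn 4 → Cn 3), SeriesOf a z ∧
        (∀ g ∈ G, MvPolynomial.eval a g ≠ 0) ∧ IsParams fE z ∧ IsPerm z WE ∧
        ¬ EquiProj 1 2 fE WE z := by
  refine ⟨isPair_example, equi_example, fun z hz ht => ?_, fun G hG => ?_⟩
  · have hm := minor_of_transversal z ht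
    exact ⟨not_equiProj z hz.1 hz.2.1 hm, fun δ hδ => crit_singular z hz.1 hz.2.1 hm δ hδ⟩
  · obtain ⟨a, z, hs, hg, hz, hz0, hm⟩ := avoid G hG
    obtain ⟨h1, h2⟩ := params_of_minor z hz hz0 hm
    exact ⟨a, z, hs, hg, h1, h2, not_equiProj z hz hz0 hm⟩

end Pool.Agent.Results.MP_299313_ag.GenericProjections
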